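import Pool.Agent.Q279.SD.Hasse

/-!
# Vanishing of the character sum with complex multiplication by `√-7`
-/

set_option autoImplicit false

namespace Q279.SD

open Finset

lemma nat_ne_zero (p : ℕ) {K : Type*} [Field K] [CharP K p] {n : ℕ} (h : ¬ p ∣ n) :
    (n : K) ≠ 0 := by
  rw [Ne, CharP.cast_eq_zero_iff K p]; exact h

variable (p : ℕ) [hp : Fact p.Prime]

lemma natCast_pow (K : Type*) [Field K] [CharP K p] (n : ℕ) : (n : K) ^ p = n := by
  have h : ((n ^ p : ℕ) : K) = ((n : ℕ) : K) := by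
    rw [CharP.natCast_eq_natCast K p]
    have := (ZMod.natCast_eq_natCast_iff (n ^ p) n p).1 (by push_cast; exact ZMod.pow_card _)
    exact this
  push_cast at h
  exact h

lemma T_zero_K {K : Type*} [Field K] [Algebra (ZMod p) K] [CharP K p] (hp2 : p ≠ 2)
    (hp3 : p ≠ 3) (hp7 : p ≠ 7) (h : quadraticChar (ZMod p) (-7) = -1) {s : K}
    (hs : s ^ 2 = -7) : T (p / 2) (21 : K) 112 = 0 := by
  have hp1 := hp.out.two_le
  have hodd : p % 2 = 1 := by
    rcases hp.out.eq_two_or_odd with h | h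
    · exact absurd h hp2
    · exact h
  have hnd : ∀ q : ℕ, q.Prime → p ≠ q → ¬ p ∣ q := fun q hq hne hd =>
    hne ((Nat.prime_dvd_prime_iff_eq hp.out hq).1 hd)
  have h2 : (2 : K) ≠ 0 := by exact_mod_cast nat_ne_zero p (K := K) (hnd 2 Nat.prime_two hp2)
  have h3 : (3 : K) ≠ 0 := by exact_mod_cast nat_ne_zero p (K := K) (hnd 3 Nat.prime_three hp3)
  have h7 : (7 : K) ≠ 0 := by exact_mod_cast nat_ne_zero p (K := K) (hnd 7 (by norm_num) hp7)
  obtain ⟨m, hm⟩ : ∃ m, m = p / 2 := ⟨_, rfl⟩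
  have hpm : p = 2 * m + 1 := by omega
  have hsp : s ^ p = -s := by
    have h1 : ((quadraticChar (ZMod p) (-7) : ℤ) : ZMod p) = (-7) ^ m := by
      rw [quadraticChar_eq_pow_of_char_ne_two' (ringChar_ne p hp2), ZMod.card, ← hm]
    rw [h] at h1
    have h4 : (-7 : K) ^ m = -1 := by
      have h5 := congrArg (algebraMap (ZMod p) K) h1
      rw [map_pow, map_neg, map_intCast, map_ofNat] at h5
      rw [← h5]
      push_cast
      ring
    have h6 : s ^ p = s ^ (2 * m + 1) := congrArg (s ^ ·) hpm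
    rw [h6, pow_succ, pow_mul, hs, h4]
    ring
  obtain ⟨r, hr⟩ : ∃ r : K, s = 2 * r + 21 := ⟨(s - 21) / 2, by field_simp; ring⟩
  have hr2 : r ^ 2 + 21 * r + 112 = 0 := by
    have : (4 : K) * (r ^ 2 + 21 * r + 112) = 0 := by
      rw [hr] at hs
      linear_combination hs
    have h4 : (4 : K) ≠ 0 := by
      rw [show (4 : K) = 2 * 2 by norm_num]; exact mul_ne_zero h2 h2
    exact (mul_eq_zero.1 this).resolve_left h4
  have hrp : r ^ p = -21 - r := by
    have e1 : s ^ p = 2 * r ^ p + 21 := by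
      rw [hr, add_pow_char, mul_pow]
      have e2 := natCast_pow p K 2
      have e21 := natCast_pow p K 21
      push_cast at e2 e21
      rw [e2, e21]
    rw [hsp, hr] at e1
    have : (2 : K) * (r ^ p - (-21 - r)) = 0 := by linear_combination -e1
    exact sub_eq_zero.1 ((mul_eq_zero.1 this).resolve_left h2)
  obtain ⟨r', hr'⟩ : ∃ r' : K, r' = -21 - r := ⟨_, rfl⟩
  have hsum : -(r + r') = 21 := by rw [hr']; ring
  have hprod : r * r' = 112 := by rw [hr']; linear_combination -hr2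
  have h112 : (112 : K) ≠ 0 := by
    rw [show (112 : K) = 2 ^ 4 * 7 by norm_num]
    exact mul_ne_zero (pow_ne_zero _ h2) h7
  have hr0 : r ≠ 0 := fun h0 => h112 (by rw [← hprod, h0, zero_mul])
  have hr'0 : r' ≠ 0 := fun h0 => h112 (by rw [← hprod, h0, mul_zero])
  have ha1 : 2 * r - r' ≠ 0 := by
    intro h0
    have e1 : 3 * (r + 7) = 0 := by rw [hr'] at h0; linear_combination h0
    have e2 := (mul_eq_zero.1 e1).resolve_left h3
    have e3 : (14 : K) = 0 := by linear_combination hr2 - (r + 14) * e2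
    have e4 : (14 : K) ≠ 0 := by
      rw [show (14 : K) = 2 * 7 by norm_num]
      exact mul_ne_zero h2 h7
    exact e4 e3
  have t1 := T_trans_K p hp2 hr'0 r
  have t2 := T_trans_K p hp2 hr0 r'
  have t3 := T_isog_K p hp2 ha1 (r * (r - r'))
  have e1 : -2 * (2 * r - r') = (r + 9) * (2 * r' - r) := by
    rw [hr']
    linear_combination 3 * hr2
  have e2 : (2 * r - r') ^ 2 - 4 * (r * (r - r')) = (r + 9) ^ 2 * (r' * (r' - r)) := by
    rw [hr']
    linear_combination (-(r + 21) * (2 * r + 15)) * hr2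
  rw [e1, e2, T_smul, ← t1] at t3
  rw [add_comm r' r, mul_comm r' r, ← hm] at t2
  rw [← hm, ← t2, hsum, hprod] at t3
  have hl1 : (r + 9) ^ m ≠ 1 := by
    intro h0
    have hw2 : r + 9 = (r + 11) ^ 2 := by linear_combination -hr2
    have hwp : (r + 11) ^ p = -21 - r + 11 := by
      have e11 := natCast_pow p K 11
      push_cast at e11
      rw [add_pow_char, hrp, e11]
    have hwp' : (r + 11) ^ p = r + 11 := by
      have h6 : (r + 11) ^ p = (r + 11) ^ (2 * m + 1) := congrArg ((r + 11) ^ ·) hpm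
      rw [h6, pow_succ, pow_mul, ← hw2, h0, one_mul]
    rw [hwp'] at hwp
    have hs0 : s = 0 := by rw [hr]; linear_combination hwp
    rw [hs0] at hs
    apply h7
    linear_combination hs
  have t4 : (1 - (r + 9) ^ m) * T m (21 : K) 112 = 0 := by linear_combination t3
  rw [← hm]
  exact (mul_eq_zero.1 t4).resolve_left (sub_ne_zero.2 hl1.symm)

lemma T_zero (hp2 : p ≠ 2) (hp3 : p ≠ 3) (hp7 : p ≠ 7)
    (h : quadraticChar (ZMod p) (-7) = -1) : T (p / 2) (21 : ZMod p) 112 = 0 := by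
  have : CharP (AlgebraicClosure (ZMod p)) p :=
    charP_of_injective_algebraMap (algebraMap (ZMod p) (AlgebraicClosure (ZMod p))).injective p
  obtain ⟨s, hs⟩ := IsAlgClosed.exists_pow_nat_eq (-7 : AlgebraicClosure (ZMod p)) (n := 2)
    (by norm_num)
  have t5 := T_zero_K p hp2 hp3 hp7 h hs
  have t6 := T_map (algebraMap (ZMod p) (AlgebraicClosure (ZMod p))) (p / 2) (21 : ZMod p) 112
  rw [map_ofNat, map_ofNat, t5, map_eq_zero] at t6
  exact t6

lemma qc_abs_le (x : ZMod p) : |quadraticChar (ZMod p) x| ≤ 1 := by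
  by_cases hx : x = 0
  · rw [hx]; simp
  · rcases quadraticChar_dichotomy hx with h | h <;> rw [h] <;> simp

lemma S_abs_lt (a b : ZMod p) : |S p a b| < p := by
  have h1 : S p a b = ∑ x ∈ univ.filter (fun x : ZMod p => x ≠ 0),
      quadraticChar (ZMod p) (x * (x ^ 2 + a * x + b)) := by
    unfold S
    rw [sum_filter]
    refine sum_congr rfl fun x _ => ?_
    split_ifs with hx
    · rfl
    · push Not at hx
      rw [hx]; simp
  rw [h1]
  refine lt_of_le_of_lt (abs_sum_le_sum_abs _ _) ?_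
  refine lt_of_le_of_lt (sum_le_sum fun x _ => qc_abs_le p _) ?_
  rw [sum_const, filter_not, card_sdiff_of_subset (subset_univ _)]
  have : (univ.filter fun x : ZMod p => x = 0).card = 1 := by
    rw [Finset.filter_eq']; simp
  rw [this, card_univ, ZMod.card, nsmul_eq_mul, mul_one]
  have := hp.out.two_le
  omega

/-- The character sum vanishes. -/
theorem S_zero (hp2 : p ≠ 2) (hp7 : p ≠ 7) (h : quadraticChar (ZMod p) (-7) = -1) :
    S p 21 112 = 0 := by
  by_cases hp3 : p = 3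
  · subst hp3
    obtain rfl : hp = ⟨Nat.prime_three⟩ := Subsingleton.elim _ _
    unfold S
    have h0 : (univ : Finset (ZMod 3)) = {0, 1, 2} := by decide
    have e1 : (1 : ZMod 3) * (1 ^ 2 + 21 * 1 + 112) = 2 := by decide
    have e2 : (2 : ZMod 3) * (2 ^ 2 + 21 * 2 + 112) = 1 := by decide
    have e3 : (0 : ZMod 3) * (0 ^ 2 + 21 * 0 + 112) = 0 := by decide
    rw [h0, sum_insert (by decide), sum_insert (by decide), sum_singleton, e1, e2, e3,
      quadraticChar_zero, map_one, quadraticChar_neg_one_iff_not_isSquare.2 (by decide)]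
    norm_num
  · have h1 := S_cast p hp2 21 112
    rw [T_zero p hp2 hp3 hp7 h, neg_zero, ZMod.intCast_zmod_eq_zero_iff_dvd] at h1
    exact Int.eq_zero_of_abs_lt_dvd h1 (S_abs_lt p 21 112)

/-- The second character sum vanishes. -/
theorem S_zero' (hp2 : p ≠ 2) (hp7 : p ≠ 7) (h : quadraticChar (ZMod p) (-7) = -1) :
    S p 42 (-7) = 0 := by
  have hnd : ∀ q : ℕ, q.Prime → p ≠ q → ¬ p ∣ q := fun q hq hne hd =>
    hne ((Nat.prime_dvd_prime_iff_eq hp.out hq).1 hd)
  have h2 : (2 : ZMod p) ≠ 0 := by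
    exact_mod_cast nat_ne_zero p (K := ZMod p) (hnd 2 Nat.prime_two hp2)
  have h7 : (7 : ZMod p) ≠ 0 := by
    exact_mod_cast nat_ne_zero p (K := ZMod p) (hnd 7 (by norm_num) hp7)
  have h112 : (112 : ZMod p) ≠ 0 := by
    rw [show (112 : ZMod p) = 2 ^ 4 * 7 by norm_num]
    exact mul_ne_zero (pow_ne_zero _ h2) h7
  have h1 := S_isog p hp2 (a := 21) h112
  rw [S_zero p hp2 hp7 h] at h1
  have h3 := S_scale p (l := -1) (neg_ne_zero.2 one_ne_zero) 42 (-7)
  rw [show (-1 : ZMod p) * 42 = -2 * 21 by ring,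
    show (-1 : ZMod p) ^ 2 * (-7) = 21 ^ 2 - 4 * 112 by ring, ← h1] at h3
  have h4 : quadraticChar (ZMod p) (-1) ≠ 0 := by
    rw [Ne, quadraticChar_eq_zero_iff]; exact neg_ne_zero.2 one_ne_zero
  exact (mul_eq_zero.1 h3.symm).resolve_left h4

end Q279.SD
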