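import Mathlib

/-!
# A character sum with complex multiplication by `√-7`

For a prime `p ≠ 2, 7` with `(-7 / p) = -1` the sum of `χ (x (x² + 21 x + 112))` over `𝔽_p` is zero.
-/

set_option autoImplicit false

namespace Q279.SD

open Polynomial Finset

/-- The coefficient of `x ^ m` of `(x² + a x + b) ^ m`. -/
def T {R : Type*} [CommRing R] (m : ℕ) (a b : R) : R :=
  ∑ i ∈ range (m + 1), ((m.choose i * (m - i).choose i : ℕ) : R) * a ^ (m - 2 * i) * b ^ i

lemma T_map {R S : Type*} [CommRing R] [CommRing S] (f : R →+* S) (m : ℕ) (a b : R) :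
    f (T m a b) = T m (f a) (f b) := by
  unfold T
  rw [map_sum]
  refine sum_congr rfl fun i _ => ?_
  rw [map_mul, map_mul, map_pow, map_pow, map_natCast]

lemma coef_zero {m i : ℕ} (h : m < 2 * i) : m.choose i * (m - i).choose i = 0 := by
  rw [Nat.choose_eq_zero_of_lt (show m - i < i by omega), mul_zero]

lemma T_smul {R : Type*} [CommRing R] (m : ℕ) (l a b : R) :
    T m (l * a) (l ^ 2 * b) = l ^ m * T m a b := by
  unfold T
  rw [mul_sum]
  refine sum_congr rfl fun i _ => ?_
  by_cases h : m < 2 * i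
  · rw [coef_zero h]; simp
  · have : l ^ m = l ^ (m - 2 * i) * (l ^ 2) ^ i := by
      rw [← pow_mul, ← pow_add]; congr 1; omega
    rw [this, mul_pow, mul_pow]; ring

lemma natDegree_T {F : Type*} [Field F] (m : ℕ) {a b : F[X]} (ha : a.natDegree ≤ 1)
    (hb : b.natDegree ≤ 2) : (T m a b).natDegree ≤ m := by
  unfold T
  refine natDegree_sum_le_of_forall_le _ _ fun i _ => ?_
  by_cases h : m < 2 * i
  · rw [coef_zero h]; simp
  · refine natDegree_mul_le.trans ?_
    have h1 : (((m.choose i * (m - i).choose i : ℕ) : F[X]) * a ^ (m - 2 * i)).natDegree ≤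
        m - 2 * i := by
      refine natDegree_mul_le.trans ?_
      rw [natDegree_natCast, zero_add]
      refine natDegree_pow_le.trans ?_
      nlinarith
    have h2 : (b ^ i).natDegree ≤ 2 * i := by
      refine natDegree_pow_le.trans ?_
      nlinarith
    omega

section prime

variable (p : ℕ) [hp : Fact p.Prime]

lemma sum_pow {k : ℕ} (h0 : 0 < k) (hk : k < 2 * (p - 1)) :
    ∑ x : ZMod p, x ^ k = if k = p - 1 then -1 else 0 := by
  have hp1 := hp.out.two_le
  rcases lt_trichotomy k (p - 1) with h | h | h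
  · rw [if_neg h.ne]
    exact FiniteField.sum_pow_lt_card_sub_one (ZMod p) k (by rw [ZMod.card]; exact h)
  · rw [if_pos h, h]
    have h1 : ∀ x : ZMod p, x ^ (p - 1) = if x = 0 then 0 else 1 := by
      intro x
      split_ifs with hx
      · rw [hx, zero_pow (by omega)]
      · exact ZMod.pow_card_sub_one_eq_one hx
    simp only [h1]
    rw [Finset.sum_ite]
    simp only [sum_const_zero, sum_const, zero_add, nsmul_eq_mul, mul_one]
    rw [filter_not, card_sdiff_of_subset (subset_univ _)]
    have : (univ.filter fun x : ZMod p => x = 0).card = 1 := by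
      rw [Finset.filter_eq']; simp
    rw [this, card_univ, ZMod.card, Nat.cast_sub (by omega)]
    simp
  · rw [if_neg h.ne']
    have h1 : ∀ x : ZMod p, x ^ k = x ^ (k - (p - 1)) := by
      intro x
      have h2 : k = (k - p) + p := by omega
      rw [h2, pow_add, ZMod.pow_card, ← pow_succ]
      congr 1
      omega
    simp only [h1]
    exact FiniteField.sum_pow_lt_card_sub_one (ZMod p) _ (by rw [ZMod.card]; omega)

/-- The character sum. -/
def S (a b : ZMod p) : ℤ := ∑ x : ZMod p, quadraticChar (ZMod p) (x * (x ^ 2 + a * x + b))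

lemma ringChar_ne (hp2 : p ≠ 2) : ringChar (ZMod p) ≠ 2 := by
  rw [ZMod.ringChar_zmod_n]; exact hp2

lemma S_cast (hp2 : p ≠ 2) (a b : ZMod p) : ((S p a b : ℤ) : ZMod p) = - T (p / 2) a b := by
  have hp1 := hp.out.two_le
  have hodd : p % 2 = 1 := by
    rcases hp.out.eq_two_or_odd with h | h
    · exact absurd h hp2
    · exact h
  obtain ⟨m, hm⟩ : ∃ m, m = p / 2 := ⟨_, rfl⟩
  have hpm : p = 2 * m + 1 := by omega
  have hm0 : 0 < m := by omega
  unfold S
  rw [Int.cast_sum]
  have h1 : ∀ x : ZMod p, ((quadraticChar (ZMod p) (x * (x ^ 2 + a * x + b)) : ℤ) : ZMod p) =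
      ∑ i ∈ range (m + 1), ∑ j ∈ range (m - i + 1),
        (b ^ i * (m.choose i : ZMod p) * (a ^ (m - i - j) * ((m - i).choose j : ZMod p))) *
          x ^ (2 * m - i + j) := by
    intro x
    rw [quadraticChar_eq_pow_of_char_ne_two' (ringChar_ne p hp2), ZMod.card, ← hm, mul_pow,
      show x ^ 2 + a * x + b = b + (x ^ 2 + a * x) by ring, add_pow, mul_sum]
    refine sum_congr rfl fun i hi => ?_
    have him : i ≤ m := Nat.lt_succ_iff.1 (mem_range.1 hi)
    rw [show x ^ 2 + a * x = x * (x + a) by ring, mul_pow, add_pow, mul_sum, mul_sum, sum_mul,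
      mul_sum]
    refine sum_congr rfl fun j _ => ?_
    rw [show 2 * m - i + j = m + (m - i) + j by omega, pow_add, pow_add]
    ring
  simp only [h1]
  rw [sum_comm]
  rw [← hm]
  unfold T
  rw [← sum_neg_distrib]
  refine sum_congr rfl fun i hi => ?_
  have him : i ≤ m := Nat.lt_succ_iff.1 (mem_range.1 hi)
  rw [sum_comm]
  have h2 : ∀ j ∈ range (m - i + 1),
      ∑ x : ZMod p, (b ^ i * (m.choose i : ZMod p) * (a ^ (m - i - j) *
        ((m - i).choose j : ZMod p))) * x ^ (2 * m - i + j) =
      (b ^ i * (m.choose i : ZMod p) * (a ^ (m - i - j) * ((m - i).choose j : ZMod p))) *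
        (if j = i then -1 else 0) := by
    intro j hj
    have hj' : j ≤ m - i := Nat.lt_succ_iff.1 (mem_range.1 hj)
    rw [← mul_sum, sum_pow p (by omega) (by omega)]
    congr 1
    by_cases h : j = i
    · rw [if_pos (by omega), if_pos h]
    · rw [if_neg (by omega), if_neg h]
  rw [sum_congr rfl h2]
  by_cases hlt : m < 2 * i
  · rw [coef_zero hlt]
    rw [sum_eq_zero]
    · simp
    · intro j hj
      have hj' : j ≤ m - i := Nat.lt_succ_iff.1 (mem_range.1 hj)
      rw [if_neg (by omega), mul_zero]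
  · rw [sum_eq_single i]
    · rw [if_pos rfl, show m - i - i = m - 2 * i by omega]
      push_cast
      ring
    · intro j _ hj
      rw [if_neg hj, mul_zero]
    · intro h
      exact absurd (mem_range.2 (by omega)) h

/-- Counting roots of `x² - u x + b`. -/
lemma card_roots (hp2 : p ≠ 2) (u b : ZMod p) :
    ((univ.filter fun x : ZMod p => x ^ 2 - u * x + b = 0).card : ℤ) =
      1 + quadraticChar (ZMod p) (u ^ 2 - 4 * b) := by
  have h2 : (2 : ZMod p) ≠ 0 := by
    intro h
    have : ((2 : ℕ) : ZMod p) = 0 := by exact_mod_cast h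
    rw [ZMod.natCast_eq_zero_iff] at this
    exact hp2 ((Nat.prime_dvd_prime_iff_eq hp.out Nat.prime_two).1 this)
  have h := quadraticChar_card_sqrts (ringChar_ne p hp2) (u ^ 2 - 4 * b)
  rw [add_comm, ← h]
  norm_cast
  refine Finset.card_bij (fun x _ => 2 * x - u) ?_ ?_ ?_
  · intro x hx
    rw [mem_filter] at hx
    rw [Set.mem_toFinset]
    show (2 * x - u) ^ 2 = u ^ 2 - 4 * b
    linear_combination 4 * hx.2
  · intro x _ y _ hxy
    have : (2 : ZMod p) * (x - y) = 0 := by linear_combination hxy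
    exact sub_eq_zero.1 ((mul_eq_zero.1 this).resolve_left h2)
  · intro y hy
    rw [Set.mem_toFinset] at hy
    have hy' : y ^ 2 = u ^ 2 - 4 * b := hy
    refine ⟨(y + u) * 2⁻¹, ?_, ?_⟩
    · rw [mem_filter]
      refine ⟨mem_univ _, ?_⟩
      have hi : (2 : ZMod p) * 2⁻¹ = 1 := mul_inv_cancel₀ h2
      have h4 : (4 : ZMod p) ≠ 0 := by
        rw [show (4 : ZMod p) = 2 * 2 by norm_num]; exact mul_ne_zero h2 h2
      have : (4 : ZMod p) * (((y + u) * 2⁻¹) ^ 2 - u * ((y + u) * 2⁻¹) + b) = 0 := by
        linear_combination hy' + ((y + u) ^ 2 * (2 * 2⁻¹ + 1) - 2 * u * (y + u)) * hi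
      exact (mul_eq_zero.1 this).resolve_left h4
    · rw [show (2 : ZMod p) * ((y + u) * 2⁻¹) - u = (y + u) * (2 * 2⁻¹) - u by ring,
        mul_inv_cancel₀ h2]
      ring

/-- The two-isogeny. -/
lemma S_isog (hp2 : p ≠ 2) {a b : ZMod p} (hb : b ≠ 0) :
    S p a b = S p (-2 * a) (a ^ 2 - 4 * b) := by
  have e1 : S p a b = ∑ x ∈ univ.filter (fun x : ZMod p => x ≠ 0),
      quadraticChar (ZMod p) (x + b / x + a) := by
    unfold S
    rw [sum_filter]
    refine sum_congr rfl fun x _ => ?_
    split_ifs with hx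
    · have : x * (x ^ 2 + a * x + b) = x ^ 2 * (x + b / x + a) := by field_simp; ring
      rw [this, map_mul, quadraticChar_sq_one' hx, one_mul]
    · push Not at hx
      rw [hx]; simp
  have e2 : ∑ x ∈ univ.filter (fun x : ZMod p => x ≠ 0),
      quadraticChar (ZMod p) (x + b / x + a) =
      ∑ u : ZMod p, quadraticChar (ZMod p) (u + a) *
        ((univ.filter fun x : ZMod p => x ^ 2 - u * x + b = 0).card : ℤ) := by
    have h1 : ∀ u : ZMod p, quadraticChar (ZMod p) (u + a) *
        ((univ.filter fun x : ZMod p => x ^ 2 - u * x + b = 0).card : ℤ) =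
        ∑ x : ZMod p, if x ^ 2 - u * x + b = 0 then quadraticChar (ZMod p) (u + a) else 0 := by
      intro u
      rw [← sum_filter, sum_const, nsmul_eq_mul, mul_comm]
    simp only [h1]
    rw [sum_comm, sum_filter]
    refine sum_congr rfl fun x _ => ?_
    split_ifs with hx
    · rw [sum_eq_single (x + b / x)]
      · rw [if_pos]
        field_simp
        ring
      · intro u _ hu
        rw [if_neg]
        intro h
        apply hu
        field_simp
        linear_combination -h
      · intro h; exact absurd (mem_univ _) h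
    · push Not at hx
      rw [hx]
      refine (sum_eq_zero fun u _ => ?_).symm
      rw [if_neg]
      simpa using hb
  have e3 : ∑ u : ZMod p, quadraticChar (ZMod p) (u + a) *
        ((univ.filter fun x : ZMod p => x ^ 2 - u * x + b = 0).card : ℤ) =
      ∑ u : ZMod p, quadraticChar (ZMod p) (u + a) *
        quadraticChar (ZMod p) (u ^ 2 - 4 * b) := by
    have h1 : ∑ u : ZMod p, quadraticChar (ZMod p) (u + a) = 0 := by
      rw [← quadraticChar_sum_zero (ringChar_ne p hp2)]
      exact Equiv.sum_comp (Equiv.addRight a) (fun u => quadraticChar (ZMod p) u)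
    calc _ = ∑ u : ZMod p, (quadraticChar (ZMod p) (u + a) + quadraticChar (ZMod p) (u + a) *
        quadraticChar (ZMod p) (u ^ 2 - 4 * b)) := by
          refine sum_congr rfl fun u _ => ?_
          rw [card_roots p hp2]; ring
      _ = _ := by rw [sum_add_distrib, h1, zero_add]
  rw [e1, e2, e3]
  unfold S
  rw [← Equiv.sum_comp (Equiv.addRight a)
    (fun x => quadraticChar (ZMod p) (x * (x ^ 2 + -2 * a * x + (a ^ 2 - 4 * b))))]
  refine sum_congr rfl fun u _ => ?_
  rw [← map_mul]
  congr 1
  show _ = (u + a) * ((u + a) ^ 2 + -2 * a * (u + a) + (a ^ 2 - 4 * b))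
  ring

/-- Translation. -/
lemma S_trans (r r' : ZMod p) : S p (-(r + r')) (r * r') = S p (2 * r - r') (r * (r - r')) := by
  unfold S
  rw [← Equiv.sum_comp (Equiv.addRight r)
    (fun x => quadraticChar (ZMod p) (x * (x ^ 2 + -(r + r') * x + r * r')))]
  refine sum_congr rfl fun u _ => ?_
  congr 1
  show (u + r) * ((u + r) ^ 2 + -(r + r') * (u + r) + r * r') = _
  ring

/-- Scaling. -/
lemma S_scale {l : ZMod p} (hl : l ≠ 0) (a b : ZMod p) :
    S p (l * a) (l ^ 2 * b) = quadraticChar (ZMod p) l * S p a b := by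
  unfold S
  rw [mul_sum, ← Equiv.sum_comp (Equiv.mulLeft₀ l hl)
    (fun x => quadraticChar (ZMod p) (x * (x ^ 2 + l * a * x + l ^ 2 * b)))]
  refine sum_congr rfl fun u _ => ?_
  show quadraticChar (ZMod p) (l * u * ((l * u) ^ 2 + l * a * (l * u) + l ^ 2 * b)) = _
  rw [show l * u * ((l * u) ^ 2 + l * a * (l * u) + l ^ 2 * b) =
    l ^ 2 * (l * (u * (u ^ 2 + a * u + b))) by ring, map_mul, quadraticChar_sq_one' hl, one_mul,
    map_mul]

variable {K : Type*} [Field K] [Algebra (ZMod p) K]

lemma T_isog_K (hp2 : p ≠ 2) {a : K} (ha : a ≠ 0) (b : K) :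
    T (p / 2) a b = T (p / 2) (-2 * a) (a ^ 2 - 4 * b) := by
  have hp1 := hp.out.two_le
  obtain ⟨m, hm⟩ : ∃ m, m = p / 2 := ⟨_, rfl⟩
  rw [← hm]
  obtain ⟨B, hB⟩ : ∃ B : (ZMod p)[X], B = T m 1 X - T m (-2) (1 - 4 * X) := ⟨_, rfl⟩
  have hB0 : B = 0 := by
    refine Polynomial.eq_zero_of_natDegree_lt_card_of_eval_eq_zero' B
      (univ.filter fun x : ZMod p => x ≠ 0) ?_ ?_
    · intro c hc
      rw [mem_filter] at hc
      rw [hB, eval_sub, sub_eq_zero]
      have h1 := T_map (evalRingHom c) m (1 : (ZMod p)[X]) X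
      have h2 := T_map (evalRingHom c) m (-2 : (ZMod p)[X]) (1 - 4 * X)
      simp only [coe_evalRingHom, eval_one, eval_X, eval_sub, eval_mul, eval_neg,
        eval_ofNat] at h1 h2
      rw [h1, h2]
      have h3 := S_cast p hp2 1 c
      have h4 := S_cast p hp2 (-2) (1 - 4 * c)
      have h5 := S_isog p hp2 (a := 1) hc.2
      rw [mul_one, one_pow] at h5
      rw [← hm] at h3 h4
      rw [← h5, h3] at h4
      exact neg_injective h4
    · rw [filter_not, card_sdiff_of_subset (subset_univ _)]
      have : (univ.filter fun x : ZMod p => x = 0).card = 1 := by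
        rw [Finset.filter_eq']; simp
      rw [this, card_univ, ZMod.card]
      have h1 : B.natDegree ≤ m := by
        rw [hB]
        refine (natDegree_sub_le _ _).trans (max_le ?_ ?_)
        · exact natDegree_T m (by simp) (by simp)
        · refine natDegree_T m ?_ ?_
          · rw [natDegree_neg, natDegree_ofNat]; omega
          · refine (natDegree_sub_le _ _).trans (max_le (by simp) ?_)
            refine natDegree_mul_le.trans ?_
            rw [natDegree_ofNat, natDegree_X]; omega
      have : m < p - 1 := by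
        rcases hp.out.eq_two_or_odd with h | h
        · exact absurd h hp2
        · omega
      omega
  have key : ∀ c : K, T m 1 c = T m (-2) (1 - 4 * c) := by
    intro c
    have h1 := T_map (aeval c : (ZMod p)[X] →ₐ[ZMod p] K).toRingHom m (1 : (ZMod p)[X]) X
    have h2 := T_map (aeval c : (ZMod p)[X] →ₐ[ZMod p] K).toRingHom m (-2 : (ZMod p)[X])
      (1 - 4 * X)
    have h3 : T m (1 : (ZMod p)[X]) X = T m (-2) (1 - 4 * X) := by
      rw [← sub_eq_zero, ← hB, hB0]
    rw [h3, h2] at h1
    have e4 : (aeval c : (ZMod p)[X] →ₐ[ZMod p] K) 4 = 4 := map_ofNat _ 4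
    have e2 : (aeval c : (ZMod p)[X] →ₐ[ZMod p] K) 2 = 2 := map_ofNat _ 2
    simpa [e2, e4] using h1.symm
  have e1 := T_smul m a 1 (b / a ^ 2)
  have e2 := T_smul m a (-2) (1 - 4 * (b / a ^ 2))
  rw [mul_one, mul_div_cancel₀ _ (pow_ne_zero 2 ha)] at e1
  rw [mul_comm a (-2), show a ^ 2 * (1 - 4 * (b / a ^ 2)) = a ^ 2 - 4 * b by field_simp] at e2
  rw [e1, e2, key]

lemma T_trans_K (hp2 : p ≠ 2) {r' : K} (hr' : r' ≠ 0) (r : K) :
    T (p / 2) (-(r + r')) (r * r') = T (p / 2) (2 * r - r') (r * (r - r')) := by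
  have hp1 := hp.out.two_le
  obtain ⟨m, hm⟩ : ∃ m, m = p / 2 := ⟨_, rfl⟩
  rw [← hm]
  obtain ⟨B, hB⟩ : ∃ B : (ZMod p)[X], B = T m (-(X + 1)) X - T m (2 * X - 1) (X * (X - 1)) :=
    ⟨_, rfl⟩
  have hB0 : B = 0 := by
    refine Polynomial.eq_zero_of_natDegree_lt_card_of_eval_eq_zero' B univ ?_ ?_
    · intro c _
      rw [hB, eval_sub, sub_eq_zero]
      have h1 := T_map (evalRingHom c) m (-(X + 1) : (ZMod p)[X]) X
      have h2 := T_map (evalRingHom c) m (2 * X - 1 : (ZMod p)[X]) (X * (X - 1))
      simp only [coe_evalRingHom, eval_one, eval_X, eval_sub, eval_mul, eval_neg, eval_add,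
        eval_ofNat] at h1 h2
      rw [h1, h2]
      have h3 := S_cast p hp2 (-(c + 1)) c
      have h4 := S_cast p hp2 (2 * c - 1) (c * (c - 1))
      have h5 := S_trans p c 1
      rw [mul_one] at h5
      rw [← hm] at h3 h4
      rw [← h5, h3] at h4
      exact neg_injective h4
    · rw [card_univ, ZMod.card]
      have h1 : B.natDegree ≤ m := by
        rw [hB]
        refine (natDegree_sub_le _ _).trans (max_le ?_ ?_)
        · refine natDegree_T m ?_ (by simp)
          rw [natDegree_neg]
          refine (natDegree_add_le _ _).trans (max_le (by simp) (by simp))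
        · refine natDegree_T m ?_ ?_
          · refine (natDegree_sub_le _ _).trans (max_le ?_ (by simp))
            refine natDegree_mul_le.trans ?_
            rw [natDegree_ofNat, natDegree_X]
          · refine natDegree_mul_le.trans ?_
            have : (X - 1 : (ZMod p)[X]).natDegree ≤ 1 :=
              (natDegree_sub_le _ _).trans (max_le (by simp) (by simp))
            rw [natDegree_X]
            omega
      omega
  have key : ∀ c : K, T m (-(c + 1)) c = T m (2 * c - 1) (c * (c - 1)) := by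
    intro c
    have h1 := T_map (aeval c : (ZMod p)[X] →ₐ[ZMod p] K).toRingHom m
      (-(X + 1) : (ZMod p)[X]) X
    have h2 := T_map (aeval c : (ZMod p)[X] →ₐ[ZMod p] K).toRingHom m
      (2 * X - 1 : (ZMod p)[X]) (X * (X - 1))
    have h3 : T m (-(X + 1) : (ZMod p)[X]) X = T m (2 * X - 1) (X * (X - 1)) := by
      rw [← sub_eq_zero, ← hB, hB0]
    rw [h3, h2] at h1
    have e4 : (aeval c : (ZMod p)[X] →ₐ[ZMod p] K) 4 = 4 := map_ofNat _ 4
    have e2 : (aeval c : (ZMod p)[X] →ₐ[ZMod p] K) 2 = 2 := map_ofNat _ 2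
    simpa [e2, e4] using h1.symm
  have e1 := T_smul m r' (-(r / r' + 1)) (r / r')
  have e2 := T_smul m r' (2 * (r / r') - 1) (r / r' * (r / r' - 1))
  rw [show r' * -(r / r' + 1) = -(r + r') by field_simp,
    show r' ^ 2 * (r / r') = r * r' by field_simp] at e1
  rw [show r' * (2 * (r / r') - 1) = 2 * r - r' by field_simp,
    show r' ^ 2 * (r / r' * (r / r' - 1)) = r * (r - r') by field_simp] at e2
  rw [e1, e2, key]

end prime

end Q279.SD
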