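import Pool.Agent.Q279.SD.CM7

/-!
# Kernel vectors of the matrices of Jacobi symbols
-/

set_option autoImplicit false

namespace Q279.SD

open Finset NumberTheorySymbols ZMod

section prime

variable (p : ℕ) [hp : Fact p.Prime]

/-- `∑ χ (u² - D) = -1`. -/
lemma sum_sq_sub (hp2 : p ≠ 2) {D : ZMod p} (hD : D ≠ 0) :
    ∑ u : ZMod p, quadraticChar (ZMod p) (u ^ 2 - D) = -1 := by
  have e1 : ∑ u : ZMod p, quadraticChar (ZMod p) (u ^ 2 - D) =
      ∑ v : ZMod p, quadraticChar (ZMod p) (v - D) * (quadraticChar (ZMod p) v + 1) := by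
    have h1 : ∀ v : ZMod p, quadraticChar (ZMod p) (v - D) * (quadraticChar (ZMod p) v + 1) =
        ∑ u : ZMod p, if u ^ 2 = v then quadraticChar (ZMod p) (v - D) else 0 := by
      intro v
      rw [← quadraticChar_card_sqrts (ringChar_ne p hp2) v, ← sum_filter, sum_const,
        nsmul_eq_mul, mul_comm]
      congr 3
      ext u
      simp
    simp only [h1]
    rw [sum_comm]
    refine sum_congr rfl fun u _ => ?_
    rw [sum_ite_eq univ (u ^ 2) (fun v => quadraticChar (ZMod p) (v - D)), if_pos (mem_univ _)]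
  have e2 : ∑ v : ZMod p, quadraticChar (ZMod p) (v - D) = 0 := by
    rw [← quadraticChar_sum_zero (ringChar_ne p hp2)]
    exact Equiv.sum_comp (Equiv.subRight D) (fun u => quadraticChar (ZMod p) u)
  have e3 : ∑ v : ZMod p, quadraticChar (ZMod p) (v - D) * quadraticChar (ZMod p) v =
      quadraticChar (ZMod p) (-1) *
        jacobiSum (quadraticChar (ZMod p)) (quadraticChar (ZMod p))⁻¹ := by
    rw [(quadraticChar_isQuadratic (ZMod p)).inv]
    unfold jacobiSum
    rw [mul_sum, ← Equiv.sum_comp (Equiv.mulLeft₀ D hD)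
      (fun v => quadraticChar (ZMod p) (v - D) * quadraticChar (ZMod p) v)]
    refine sum_congr rfl fun x _ => ?_
    show quadraticChar (ZMod p) (D * x - D) * quadraticChar (ZMod p) (D * x) = _
    rw [← map_mul, ← map_mul, ← map_mul,
      show (D * x - D) * (D * x) = D ^ 2 * (-1 * (x * (1 - x))) by ring, map_mul,
      quadraticChar_sq_one' hD, one_mul]
  have e4 := jacobiSum_nontrivial_inv (quadraticChar_ne_one (ringChar_ne p hp2))
  rw [e1]
  simp only [mul_add, mul_one]
  rw [sum_add_distrib, e2, add_zero, e3, e4]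
  have h5 : quadraticChar (ZMod p) (-1) ^ 2 = 1 :=
    quadraticChar_sq_one (neg_ne_zero.2 one_ne_zero)
  linear_combination -h5

/-- The sum of `χ` over the values of a quadratic form. -/
lemma sum_quad (hp2 : p ≠ 2) {c d : ZMod p} (hd : d ≠ 0) (hD : c ^ 2 - 4 * d ≠ 0)
    {j : ZMod p} (hj : j ≠ 0) :
    ∑ k : ZMod p, quadraticChar (ZMod p) (j ^ 2 + c * j * k + d * k ^ 2) =
      - quadraticChar (ZMod p) d := by
  have hnd : ∀ q : ℕ, q.Prime → p ≠ q → ¬ p ∣ q := fun q hq hne hd =>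
    hne ((Nat.prime_dvd_prime_iff_eq hp.out hq).1 hd)
  have h2 : (2 : ZMod p) ≠ 0 := by
    exact_mod_cast nat_ne_zero p (K := ZMod p) (hnd 2 Nat.prime_two hp2)
  have h2d : 2 * d ≠ 0 := mul_ne_zero h2 hd
  have h1 := sum_sq_sub p hp2 (mul_ne_zero (pow_ne_zero 2 hj) hD)
  rw [← Equiv.sum_comp ((Equiv.mulLeft₀ (2 * d) h2d).trans (Equiv.addRight (c * j)))
    (fun u => quadraticChar (ZMod p) (u ^ 2 - j ^ 2 * (c ^ 2 - 4 * d)))] at h1
  have h3 : ∀ k : ZMod p, quadraticChar (ZMod p)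
      ((((Equiv.mulLeft₀ (2 * d) h2d).trans (Equiv.addRight (c * j))) k) ^ 2 -
        j ^ 2 * (c ^ 2 - 4 * d)) =
      quadraticChar (ZMod p) d * quadraticChar (ZMod p) (j ^ 2 + c * j * k + d * k ^ 2) := by
    intro k
    show quadraticChar (ZMod p) ((2 * d * k + c * j) ^ 2 - j ^ 2 * (c ^ 2 - 4 * d)) = _
    rw [show (2 * d * k + c * j) ^ 2 - j ^ 2 * (c ^ 2 - 4 * d) =
      2 ^ 2 * (d * (j ^ 2 + c * j * k + d * k ^ 2)) by ring, map_mul,
      quadraticChar_sq_one' h2, one_mul, map_mul]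
  simp only [h3] at h1
  rw [← mul_sum] at h1
  have h4 : quadraticChar (ZMod p) d ^ 2 = 1 := quadraticChar_sq_one hd
  linear_combination quadraticChar (ZMod p) d * h1 -
    (∑ k : ZMod p, quadraticChar (ZMod p) (j ^ 2 + c * j * k + d * k ^ 2)) * h4

/-- The character is in the kernel. -/
lemma sum_char (hp2 : p ≠ 2) {c d : ZMod p} (hS : S p c d = 0) (j : ZMod p) :
    ∑ k : ZMod p, quadraticChar (ZMod p) (j ^ 2 + c * j * k + d * k ^ 2) *
      quadraticChar (ZMod p) k = 0 := by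
  by_cases hj : j = 0
  · have h1 : ∀ k : ZMod p, quadraticChar (ZMod p) (j ^ 2 + c * j * k + d * k ^ 2) *
        quadraticChar (ZMod p) k = quadraticChar (ZMod p) d * quadraticChar (ZMod p) k := by
      intro k
      by_cases hk : k = 0
      · rw [hk]; simp
      · rw [hj, show (0 : ZMod p) ^ 2 + c * 0 * k + d * k ^ 2 = d * k ^ 2 by ring, map_mul,
          quadraticChar_sq_one' hk, mul_one]
    simp only [h1]
    rw [← mul_sum, quadraticChar_sum_zero (ringChar_ne p hp2), mul_zero]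
  · have h1 : ∀ k : ZMod p, quadraticChar (ZMod p) (j ^ 2 + c * j * k + d * k ^ 2) *
        quadraticChar (ZMod p) k = quadraticChar (ZMod p) j *
        quadraticChar (ZMod p) ((j * k⁻¹) * ((j * k⁻¹) ^ 2 + c * (j * k⁻¹) + d)) := by
      intro k
      by_cases hk : k = 0
      · rw [hk]; simp
      · have hk4 : quadraticChar (ZMod p) (k ^ 2) = 1 := quadraticChar_sq_one' hk
        rw [← map_mul, ← map_mul]
        have e : j * (j * k⁻¹ * ((j * k⁻¹) ^ 2 + c * (j * k⁻¹) + d)) * (k ^ 2) ^ 2 =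
            j ^ 2 * ((j ^ 2 + c * j * k + d * k ^ 2) * k) := by
          field_simp
        have e' := congrArg (quadraticChar (ZMod p)) e
        rw [map_mul, map_mul (quadraticChar (ZMod p)) (j ^ 2), map_pow, hk4, one_pow, mul_one,
          quadraticChar_sq_one' hj, one_mul] at e'
        exact e'.symm
    simp only [h1]
    rw [← mul_sum]
    have h2 := Equiv.sum_comp ((Equiv.inv (ZMod p)).trans (Equiv.mulLeft₀ j hj))
      (fun x => quadraticChar (ZMod p) (x * (x ^ 2 + c * x + d)))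
    have h3 : ∑ k : ZMod p, quadraticChar (ZMod p)
        ((j * k⁻¹) * ((j * k⁻¹) ^ 2 + c * (j * k⁻¹) + d)) = S p c d := h2
    rw [h3, hS, mul_zero]

/-- Sums over `ZMod p` and over `range p`. -/
lemma sum_zmod {α : Type*} [AddCommMonoid α] (f : ZMod p → α) :
    ∑ k : ZMod p, f k = ∑ t ∈ range p, f (t : ZMod p) := by
  symm
  refine sum_nbij' (fun t => (t : ZMod p)) (fun k => k.val) ?_ ?_ ?_ ?_ ?_
  · intro t _; exact mem_univ _
  · intro k _; exact mem_range.2 (ZMod.val_lt k)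
  · intro t ht; exact ZMod.val_natCast_of_lt (mem_range.1 ht)
  · intro k _; exact ZMod.natCast_zmod_val k
  · intro t _; rfl

lemma jac_eq (a : ℤ) : jacobiSym a p = quadraticChar (ZMod p) (a : ZMod p) := by
  rw [← jacobiSym.legendreSym.to_jacobiSym]; rfl

end prime

/-- The matrix `[((j² + c j k + d k²) / n)]`, `2 ≤ j, k ≤ n - 2`. -/
def mat (c d : ℤ) (n : ℕ) : Matrix (Fin (n - 3)) (Fin (n - 3)) ℤ :=
  Matrix.of fun i j => jacobiSym (((i : ℤ) + 2) ^ 2 + c * ((i : ℤ) + 2) * ((j : ℤ) + 2) +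
    d * ((j : ℤ) + 2) ^ 2) n

/-- `n` not squarefree: two equal columns. -/
lemma det_nonsq {c d : ℤ} {n q : ℕ} (hn : Odd n) (hq : q.Prime) (h : q * q ∣ n)
    (hn0 : n ≠ 0) : (mat c d n).det = 0 := by
  obtain ⟨t, ht⟩ := h
  have hq2 : q ≠ 2 := by
    rintro rfl
    rw [ht] at hn
    exact absurd hn (by rw [Nat.not_odd_iff_even]; exact ⟨2 * t, by ring⟩)
  have hq3 : 3 ≤ q := by
    have := hq.two_le
    omega
  have ht0 : t ≠ 0 := by rintro rfl; exact hn0 (by rw [ht, mul_zero])
  have ht1 : 1 ≤ t := Nat.one_le_iff_ne_zero.2 ht0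
  have hqt : q * t + 3 < n := by
    rw [ht, mul_assoc]
    have h1 : 3 ≤ q * t := by nlinarith
    nlinarith
  have hlt0 : 0 < n - 3 := by omega
  have hlt1 : q * t < n - 3 := by omega
  refine Matrix.det_zero_of_column_eq (i := ⟨0, hlt0⟩) (j := ⟨q * t, hlt1⟩) ?_ ?_
  · intro h
    have := congrArg Fin.val h
    simp only at this
    have : 0 < q * t := Nat.mul_pos (by omega) ht1
    omega
  · intro k
    unfold mat
    simp only [Matrix.of_apply]
    have h1 : n = q * (q * t) := by rw [ht]; ring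
    have hqt0 : q * t ≠ 0 := Nat.mul_ne_zero (by omega) ht0
    obtain ⟨z, hz⟩ : ∃ z : ℤ, z = (k : ℤ) + 2 := ⟨_, rfl⟩
    rw [← hz, h1, jacobiSym.mul_right' _ (by omega) hqt0, jacobiSym.mul_right' _ (by omega) hqt0]
    have hmod : ∀ b : ℕ, b ∣ q * t →
        jacobiSym (z ^ 2 + c * z * (((0 : ℕ) : ℤ) + 2) + d * (((0 : ℕ) : ℤ) + 2) ^ 2) b =
        jacobiSym (z ^ 2 + c * z * (((q * t : ℕ) : ℤ) + 2) +
          d * (((q * t : ℕ) : ℤ) + 2) ^ 2) b := by
      intro b hb
      apply jacobiSym.mod_left'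
      apply Int.ModEq.eq
      have h2 : (((0 : ℕ) : ℤ) + 2) ≡ (((q * t : ℕ) : ℤ) + 2) [ZMOD b] := by
        apply Int.ModEq.add_right
        rw [Int.modEq_iff_dvd]
        have : (b : ℤ) ∣ ((q * t : ℕ) : ℤ) := Int.natCast_dvd_natCast.2 hb
        simpa using this
      exact ((h2.mul_left _).add_left _).add ((h2.pow 2).mul_left _)
    rw [hmod q (Dvd.intro _ rfl), hmod (q * t) dvd_rfl]

/-- A prime divisor with the right residue character. -/
lemma exists_prime : ∀ n : ℕ, jacobiSym n 7 = -1 → ∃ p : ℕ, p.Prime ∧ p ∣ n ∧ jacobiSym p 7 = -1 := by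
  intro n
  induction n using Nat.recOnMul with
  | zero =>
    intro h
    rw [Nat.cast_zero, jacobiSym.zero_left (by norm_num)] at h
    norm_num at h
  | one =>
    intro h
    rw [Nat.cast_one, jacobiSym.one_left] at h
    norm_num at h
  | prime p hp => intro h; exact ⟨p, hp, dvd_rfl, h⟩
  | mul a b ha hb =>
    intro h
    push_cast at h
    rw [jacobiSym.mul_left] at h
    by_cases h1 : jacobiSym a 7 = -1
    · obtain ⟨p, hp, hpa, hp7⟩ := ha h1
      exact ⟨p, hp, hpa.mul_right b, hp7⟩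
    · by_cases h2 : jacobiSym b 7 = -1
      · obtain ⟨p, hp, hpa, hp7⟩ := hb h2
        exact ⟨p, hp, hpa.mul_left a, hp7⟩
      · exfalso
        rcases jacobiSym.trichotomy a 7 with h3 | h3 | h3 <;>
        rcases jacobiSym.trichotomy b 7 with h4 | h4 | h4 <;>
        simp_all

lemma chi_neg7 {p : ℕ} [hp : Fact p.Prime] (hp2 : p ≠ 2) (h : jacobiSym p 7 = -1) :
    quadraticChar (ZMod p) (-7) = -1 := by
  have hodd : Odd p := hp.out.odd_of_ne_two hp2
  have h1 := jac_eq p (-7)
  push_cast at h1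
  rw [← h1, jacobiSym.neg _ hodd]
  have h2 := jacobiSym.quadratic_reciprocity (a := 7) (b := p) (by decide) hodd
  push_cast at h2
  rw [h2, h, ZMod.χ₄_eq_neg_one_pow (Nat.odd_iff.1 hodd)]
  have h3 : (7 / 2 * (p / 2)) = 2 * (p / 2) + p / 2 := by
    norm_num; ring
  rw [h3, pow_add, pow_mul]
  have h4 : ((-1 : ℤ) ^ (p / 2)) * (-1) ^ (p / 2) = 1 := by
    rw [← mul_pow]; norm_num
  norm_num
  linear_combination h4

/-- The prime case. -/
lemma det_prime {c d : ℤ} {p : ℕ} [hp : Fact p.Prime] (hp4 : p % 4 = 1)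
    (hS : S p (c : ZMod p) (d : ZMod p) = 0) (hd : quadraticChar (ZMod p) (d : ZMod p) = -1)
    (hD : (c : ZMod p) ^ 2 - 4 * (d : ZMod p) ≠ 0) : (mat c d p).det = 0 := by
  have hp2 : p ≠ 2 := by rintro rfl; norm_num at hp4
  have hp5 : 5 ≤ p := by
    have := hp.out.two_le
    omega
  have hd0 : (d : ZMod p) ≠ 0 := by
    intro h
    rw [h, quadraticChar_zero] at hd
    norm_num at hd
  have hm1 : quadraticChar (ZMod p) (-1) = 1 := by
    rw [quadraticChar_neg_one (ringChar_ne p hp2), ZMod.card, ZMod.χ₄_nat_one_mod_four hp4]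
  obtain ⟨w, hw⟩ : ∃ w : ZMod p → ℤ, w = fun k => if k = 0 then 0 else
    1 - quadraticChar (ZMod p) k := ⟨_, rfl⟩
  have hw0 : w 0 = 0 := by rw [hw]; simp
  have hw1 : w 1 = 0 := by rw [hw]; simp
  have hwm1 : w (-1) = 0 := by rw [hw]; simp [hm1]
  refine Matrix.exists_mulVec_eq_zero_iff.1 ⟨fun j : Fin (p - 3) => w (((j : ℕ) + 2 : ℕ)), ?_, ?_⟩
  · intro h0
    obtain ⟨a, ha⟩ := quadraticChar_exists_neg_one (F := ZMod p) (ringChar_ne p hp2)
    have hwa : w a = 2 := by
      rw [hw]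
      have : a ≠ 0 := by rintro rfl; rw [quadraticChar_zero] at ha; norm_num at ha
      simp only [if_neg this, ha]
      norm_num
    have hva : ((a.val : ℕ) : ZMod p) = a := ZMod.natCast_zmod_val a
    have hlt := ZMod.val_lt a
    have h2 : 2 ≤ a.val := by
      by_contra hcon
      have : a.val = 0 ∨ a.val = 1 := by omega
      rcases this with h | h
      · rw [h] at hva; rw [← hva] at hwa; rw [Nat.cast_zero, hw0] at hwa; norm_num at hwa
      · rw [h] at hva; rw [← hva] at hwa; rw [Nat.cast_one, hw1] at hwa; norm_num at hwa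
    have h3 : a.val ≠ p - 1 := by
      intro h
      rw [h, Nat.cast_sub (by omega), CharP.cast_eq_zero, Nat.cast_one, zero_sub] at hva
      rw [← hva, hwm1] at hwa
      norm_num at hwa
    have h4 := congrFun h0 ⟨a.val - 2, by omega⟩
    simp only [Pi.zero_apply] at h4
    rw [show a.val - 2 + 2 = a.val by omega, hva, hwa] at h4
    norm_num at h4
  · ext i
    simp only [Matrix.mulVec, dotProduct, Pi.zero_apply]
    obtain ⟨z, hz⟩ : ∃ z : ZMod p, z = (((i : ℕ) + 2 : ℕ) : ZMod p) := ⟨_, rfl⟩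
    have hz0 : z ≠ 0 := by
      rw [hz, Ne, ZMod.natCast_eq_zero_iff]
      intro hdvd
      have := Nat.le_of_dvd (by omega) hdvd
      have := i.2
      omega
    obtain ⟨g, hg⟩ : ∃ g : ZMod p → ℤ, g = fun k =>
      quadraticChar (ZMod p) (z ^ 2 + (c : ZMod p) * z * k + (d : ZMod p) * k ^ 2) * w k :=
      ⟨_, rfl⟩
    have h1 : ∀ j : Fin (p - 3), mat c d p i j * w (((j : ℕ) + 2 : ℕ)) =
        g (((j : ℕ) + 2 : ℕ)) := by
      intro j
      rw [hg, mat]
      simp only [Matrix.of_apply]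
      rw [jac_eq, hz]
      push_cast
      rfl
    rw [sum_congr rfl fun j _ => h1 j]
    rw [Fin.sum_univ_eq_sum_range (fun t => g ((t + 2 : ℕ))) (p - 3)]
    have h2 : ∑ t ∈ range p, g (t : ZMod p) = ∑ t ∈ range (p - 3), g ((t + 2 : ℕ)) := by
      obtain ⟨q, hq⟩ : ∃ q, p = q + 3 := ⟨p - 3, by omega⟩
      have e1 : ∑ t ∈ range p, g (t : ZMod p) = ∑ t ∈ range (q + 2 + 1), g (t : ZMod p) := by
        congr 2
      rw [e1, sum_range_succ, sum_range_succ', sum_range_succ']
      have e2 : ((q + 2 : ℕ) : ZMod p) = -1 := by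
        have h5 : ((q + 2 : ℕ) : ZMod p) + 1 = ((q + 3 : ℕ) : ZMod p) := by push_cast; ring
        have h6 : ((q + 3 : ℕ) : ZMod p) = 0 :=
          (congrArg (Nat.cast : ℕ → ZMod p) hq.symm).trans (ZMod.natCast_self p)
        rw [h6] at h5
        exact eq_neg_of_add_eq_zero_left h5
      have e3 : p - 3 = q := by omega
      rw [e2, e3, hg]
      simp only [Nat.cast_zero, hw0, hwm1, mul_zero, add_zero, zero_add, Nat.cast_one, hw1]
    rw [← h2, ← sum_zmod]
    have h3 : ∀ k : ZMod p, g k =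
        quadraticChar (ZMod p) (z ^ 2 + (c : ZMod p) * z * k + (d : ZMod p) * k ^ 2) -
        quadraticChar (ZMod p) (z ^ 2 + (c : ZMod p) * z * k + (d : ZMod p) * k ^ 2) *
          quadraticChar (ZMod p) k - if k = 0 then 1 else 0 := by
      intro k
      rw [hg, hw]
      simp only
      split_ifs with hk
      · rw [hk]; simp [quadraticChar_sq_one' hz0]
      · ring
    simp only [h3]
    rw [sum_sub_distrib, sum_sub_distrib, sum_quad p hp2 hd0 hD hz0, sum_char p hp2 hS z,
      sum_ite_eq' univ (0 : ZMod p) (fun _ => (1 : ℤ)), if_pos (mem_univ _), hd]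
    norm_num

/-- The composite case. -/
lemma det_comp {c d : ℤ} {p m : ℕ} [hp : Fact p.Prime] (hp2 : p ≠ 2) (hm : 5 ≤ m)
    (hcop : Nat.Coprime p m) (hS : S p (c : ZMod p) (d : ZMod p) = 0) :
    (mat c d (p * m)).det = 0 := by
  have hp3 : 3 ≤ p := by
    have := hp.out.two_le
    omega
  have hm0 : (m : ZMod p) ≠ 0 := by
    rw [Ne, ZMod.natCast_eq_zero_iff]
    intro h
    have := Nat.dvd_gcd dvd_rfl h
    rw [hcop] at this
    have := Nat.le_of_dvd one_pos this
    omega
  have hpm : m * (p - 1) + m = p * m := by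
    obtain ⟨q, rfl⟩ : ∃ q, p = q + 1 := ⟨p - 1, by omega⟩
    simp; ring
  have hlt0 : 0 < p * m - 3 := by
    have := Nat.mul_le_mul hp3 hm
    omega
  have h2 : (2 : ZMod p) ≠ 0 := by
    intro h
    have : ((2 : ℕ) : ZMod p) = 0 := by exact_mod_cast h
    rw [ZMod.natCast_eq_zero_iff] at this
    exact hp2 ((Nat.prime_dvd_prime_iff_eq hp.out Nat.prime_two).1 this)
  refine Matrix.exists_mulVec_eq_zero_iff.1 ⟨fun j : Fin (p * m - 3) =>
    if m ∣ (j : ℕ) then quadraticChar (ZMod p) (((j : ℕ) : ZMod p) + 2) else 0, ?_, ?_⟩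
  · intro h0
    have h4 := congrFun h0 ⟨0, hlt0⟩
    simp only [Pi.zero_apply, dvd_zero, if_true, Nat.cast_zero, zero_add,
      quadraticChar_eq_zero_iff] at h4
    exact h2 h4
  · ext i
    simp only [Matrix.mulVec, dotProduct, Pi.zero_apply, mat, Matrix.of_apply]
    obtain ⟨z, hz⟩ : ∃ z : ℤ, z = (i : ℤ) + 2 := ⟨_, rfl⟩
    rw [← hz]
    rw [Fin.sum_univ_eq_sum_range (fun t : ℕ => jacobiSym (z ^ 2 + c * z * ((t : ℤ) + 2) +
      d * ((t : ℤ) + 2) ^ 2) (p * m) * if m ∣ t then quadraticChar (ZMod p) ((t : ZMod p) + 2)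
        else 0) (p * m - 3)]
    have hsub : (range p).image (fun t => m * t) ⊆ range (p * m - 3) := by
      intro j hj
      obtain ⟨t, ht, rfl⟩ := mem_image.1 hj
      rw [mem_range] at ht ⊢
      have : m * t ≤ m * (p - 1) := Nat.mul_le_mul_left m (by omega)
      show m * t < p * m - 3
      omega
    rw [← sum_subset hsub]
    · rw [sum_image (by
        intro t _ t' _ h
        exact Nat.eq_of_mul_eq_mul_left (by omega) h)]
      have h3 : ∀ t : ℕ, jacobiSym (z ^ 2 + c * z * (((m * t : ℕ) : ℤ) + 2) +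
          d * (((m * t : ℕ) : ℤ) + 2) ^ 2) (p * m) *
          (if m ∣ m * t then quadraticChar (ZMod p) (((m * t : ℕ) : ZMod p) + 2) else 0) =
          jacobiSym (z ^ 2 + c * z * 2 + d * 2 ^ 2) m *
            (quadraticChar (ZMod p) ((z : ZMod p) ^ 2 + (c : ZMod p) * (z : ZMod p) *
              ((m : ZMod p) * (t : ZMod p) + 2) +
              (d : ZMod p) * ((m : ZMod p) * (t : ZMod p) + 2) ^ 2) *
            quadraticChar (ZMod p) ((m : ZMod p) * (t : ZMod p) + 2)) := by
        intro t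
        rw [if_pos (Dvd.intro _ rfl), jacobiSym.mul_right' _ (by omega) (by omega), jac_eq]
        have e1 : jacobiSym (z ^ 2 + c * z * (((m * t : ℕ) : ℤ) + 2) +
            d * (((m * t : ℕ) : ℤ) + 2) ^ 2) m =
            jacobiSym (z ^ 2 + c * z * 2 + d * 2 ^ 2) m := by
          apply jacobiSym.mod_left'
          apply Int.ModEq.eq
          have h2 : (((m * t : ℕ) : ℤ) + 2) ≡ 2 [ZMOD m] := by
            rw [Int.modEq_iff_dvd]
            exact ⟨-t, by push_cast; ring⟩
          exact ((h2.mul_left _).add_left _).add ((h2.pow 2).mul_left _)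
        rw [e1]
        push_cast
        ring
      simp only [h3]
      rw [← mul_sum, ← sum_zmod p (fun t : ZMod p => quadraticChar (ZMod p) ((z : ZMod p) ^ 2 +
          (c : ZMod p) * (z : ZMod p) * ((m : ZMod p) * t + 2) +
              (d : ZMod p) * ((m : ZMod p) * t + 2) ^ 2) *
            quadraticChar (ZMod p) ((m : ZMod p) * t + 2))]
      have h5 := Equiv.sum_comp ((Equiv.mulLeft₀ (m : ZMod p) hm0).trans (Equiv.addRight 2))
        (fun k : ZMod p => quadraticChar (ZMod p) ((z : ZMod p) ^ 2 +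
          (c : ZMod p) * (z : ZMod p) * k + (d : ZMod p) * k ^ 2) * quadraticChar (ZMod p) k)
      have h6 : ∑ t : ZMod p, quadraticChar (ZMod p) ((z : ZMod p) ^ 2 +
          (c : ZMod p) * (z : ZMod p) * ((m : ZMod p) * t + 2) +
              (d : ZMod p) * ((m : ZMod p) * t + 2) ^ 2) *
            quadraticChar (ZMod p) ((m : ZMod p) * t + 2) = 0 := by
        rw [sum_char p hp2 hS (z : ZMod p)] at h5
        exact h5
      rw [h6, mul_zero]
    · intro j hj hj2
      rw [if_neg, mul_zero]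
      rintro ⟨t, rfl⟩
      apply hj2
      refine mem_image.2 ⟨t, ?_, rfl⟩
      rw [mem_range] at hj ⊢
      by_contra hcon
      push Not at hcon
      have : m * p ≤ m * t := Nat.mul_le_mul_left m hcon
      rw [mul_comm m p] at this
      omega

/-- All cases. -/
theorem det_zero {c d : ℤ} (hS : ∀ (p : ℕ) [Fact p.Prime], p ≠ 2 → p ≠ 7 →
      quadraticChar (ZMod p) (-7) = -1 → S p (c : ZMod p) (d : ZMod p) = 0)
    (hd : ∀ (p : ℕ) [Fact p.Prime], p % 4 = 1 → p ≠ 7 → quadraticChar (ZMod p) (-7) = -1 →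
      quadraticChar (ZMod p) (d : ZMod p) = -1 ∧ (c : ZMod p) ^ 2 - 4 * (d : ZMod p) ≠ 0)
    {n : ℕ} (hn : n % 4 = 1) (h7 : jacobiSym n 7 = -1) : (mat c d n).det = 0 := by
  have hn0 : n ≠ 0 := by omega
  have hodd : Odd n := Nat.odd_iff.2 (by omega)
  by_cases hsq : ∃ q : ℕ, q.Prime ∧ q * q ∣ n
  · obtain ⟨q, hq, hqq⟩ := hsq
    exact det_nonsq hodd hq hqq hn0
  · push Not at hsq
    obtain ⟨p, hp, hpn, hp7⟩ := exists_prime n h7
    obtain ⟨m, hm⟩ := hpn
    have hp2 : p ≠ 2 := by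
      rintro rfl
      rw [hm] at hn
      omega
    have hpne7 : p ≠ 7 := by
      rintro rfl
      have : jacobiSym ((7 : ℕ) : ℤ) 7 = 0 := by
        rw [jacobiSym.eq_zero_iff]; norm_num
      rw [this] at hp7
      norm_num at hp7
    have : Fact p.Prime := ⟨hp⟩
    have hchi := chi_neg7 hp2 hp7
    have hS' := hS p hp2 hpne7 hchi
    have hcop : Nat.Coprime p m := by
      rw [hp.coprime_iff_not_dvd]
      intro h
      exact hsq p hp (by rw [hm]; exact Nat.mul_dvd_mul_left p h)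
    have hmodd : Odd m := by
      rw [hm] at hodd
      exact (Nat.odd_mul.1 hodd).2
    by_cases hm1 : m = 1
    · rw [hm1, mul_one] at hm
      subst hm
      obtain ⟨h1, h2⟩ := hd n hn hpne7 hchi
      exact det_prime hn hS' h1 h2
    · have hm3 : m ≠ 3 := by
        rintro rfl
        rw [hm] at h7
        push_cast at h7
        rw [jacobiSym.mul_left, hp7] at h7
        have : jacobiSym 3 7 = -1 := by norm_num
        rw [this] at h7
        norm_num at h7
      have hm5 : 5 ≤ m := by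
        obtain ⟨t, ht⟩ := hmodd
        omega
      rw [hm]
      exact det_comp hp2 hm5 hcop hS'

end Q279.SD
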